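import Pool.Agent.BER.Stmts

set_option autoImplicit false

/-!
# Row ODP of squad BER: the recursion with a polynomial right side
-/

namespace Pool.Agent.BER.H15

open Filter

theorem odp : OdpStmt := by
  intro E _ _ _ T n f hf
  let Y : E → ℕ → E := fun v b => Nat.rec v (fun b y => ((b : ℝ) + 1)⁻¹ • (f b - T y)) b
  have hY0 : ∀ v, Y v 0 = v := fun v => rfl
  have hYs : ∀ v b, Y v (b + 1) = ((b : ℝ) + 1)⁻¹ • (f b - T (Y v b)) := fun v b => rfl
  have hrec : ∀ v (b : ℕ), ((b : ℝ) + 1) • Y v (b + 1) + T (Y v b) = f b := by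
    intro v b
    have hb : (b : ℝ) + 1 ≠ 0 := by positivity
    rw [hYs, smul_smul, mul_inv_cancel₀ hb, one_smul, sub_add_cancel]
  have hlin : ∀ b : ℕ, ∃ c : ℝ, c ≠ 0 ∧ ∀ v, Y v b = Y 0 b + c • (T ^ b) v := by
    intro b
    induction b with
    | zero =>
      refine ⟨1, one_ne_zero, fun v => ?_⟩
      rw [hY0, hY0, pow_zero, Module.End.one_apply, one_smul, zero_add]
    | succ b ih =>
      obtain ⟨c, hc, h⟩ := ih
      have hb : (b : ℝ) + 1 ≠ 0 := by positivity
      refine ⟨-(((b : ℝ) + 1)⁻¹ * c), neg_ne_zero.2 (mul_ne_zero (inv_ne_zero hb) hc), fun v => ?_⟩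
      rw [hYs, hYs, h v, map_add, map_smul, pow_succ', Module.End.mul_apply, ← sub_sub,
        smul_sub _ (f b - T (Y 0 b)), smul_smul, neg_smul, sub_eq_add_neg]
  obtain ⟨r, hrn, hr⟩ := ((eventually_ge_atTop n).and
    (LinearMap.eventually_isCompl_ker_pow_range_pow T)).exists
  obtain ⟨c, hc, hcv⟩ := hlin n
  have htop : Y 0 n ∈ LinearMap.ker (T ^ r) ⊔ LinearMap.range (T ^ r) := by
    rw [hr.sup_eq_top]
    exact Submodule.mem_top
  obtain ⟨a, ha, w', hw', haw⟩ := Submodule.mem_sup.1 htop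
  obtain ⟨w, rfl⟩ := hw'
  set v : E := -(c⁻¹ • (T ^ (r - n)) w) with hv
  have hn : Y v n = a := by
    rw [hcv, ← haw, hv, map_neg, map_smul, ← Module.End.mul_apply, ← pow_add,
      Nat.add_sub_cancel' hrn, smul_neg, smul_smul, mul_inv_cancel₀ hc, one_smul]
    abel
  have hk : ∀ k : ℕ, ∃ d : ℝ, Y v (n + k) = d • (T ^ k) a := by
    intro k
    induction k with
    | zero =>
      refine ⟨1, ?_⟩
      rw [pow_zero, Module.End.one_apply, one_smul, add_zero, hn]
    | succ k ih =>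
      obtain ⟨d, hd⟩ := ih
      refine ⟨-((((n + k : ℕ) : ℝ) + 1)⁻¹ * d), ?_⟩
      rw [← add_assoc, hYs, hf (n + k) (by omega), hd, map_smul, pow_succ', Module.End.mul_apply,
        zero_sub, smul_neg, smul_smul, neg_smul]
  refine ⟨n + r, Y v, ?_, hrec v⟩
  intro b hb
  obtain ⟨k, rfl⟩ := Nat.exists_eq_add_of_le (show n ≤ b by omega)
  obtain ⟨d, hd⟩ := hk k
  have hkr : r ≤ k := by omega
  have h0 : (T ^ k) a = 0 := by
    rw [← Nat.sub_add_cancel hkr, pow_add, Module.End.mul_apply, LinearMap.mem_ker.1 ha, map_zero]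
  rw [hd, h0, smul_zero]

end Pool.Agent.BER.H15
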