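import Pool.Agent.BER.StmtsE
import Mathlib.Analysis.Calculus.ContDiff.Polynomial

set_option autoImplicit false

/-!
# Row SPH of squad BER: the radial spectrum of the shell
-/

namespace Pool.Agent.BER.H15

open Set Filter Topology MeasureTheory
open scoped InnerProductSpace ENNReal
open Pool.Agent.BE01 Pool.Agent.BEL Pool.Agent.BEF Pool.Agent.BEN Pool.Agent.BEH Pool.Agent.BEG
open Pool.Agent.BER

noncomputable section

/-- The operator `Ld` on a linear combination of smooth functions. -/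
theorem Ld_comb (d : ℕ) (l α β : ℝ) (w g1 g2 : ℝ → ℝ)
    (hw : ContDiffOn ℝ ((⊤ : ℕ∞) : WithTop ℕ∞) w (Ioi 0))
    (h1 : ContDiffOn ℝ ((⊤ : ℕ∞) : WithTop ℕ∞) g1 (Ioi 0))
    (h2 : ContDiffOn ℝ ((⊤ : ℕ∞) : WithTop ℕ∞) g2 (Ioi 0)) (t : ℝ) (ht : 0 < t) :
    Ld d l (fun t => w t + α * g1 t + β * g2 t) t = Ld d l w t + α * Ld d l g1 t +
      β * Ld d l g2 t := by
  have hne : ((⊤ : ℕ∞) : WithTop ℕ∞) ≠ 0 := by simp
  have hd : ∀ g : ℝ → ℝ, ContDiffOn ℝ ((⊤ : ℕ∞) : WithTop ℕ∞) g (Ioi 0) → ∀ s : ℝ, 0 < s →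
      HasDerivAt g (deriv g s) s := by
    intro g hg s hs
    exact ((hg.differentiableOn hne).differentiableAt (Ioi_mem_nhds hs)).hasDerivAt
  have hd2 : ∀ g : ℝ → ℝ, ContDiffOn ℝ ((⊤ : ℕ∞) : WithTop ℕ∞) g (Ioi 0) → ∀ s : ℝ, 0 < s →
      HasDerivAt (deriv g) (deriv (deriv g) s) s := by
    intro g hg s hs
    have h3 : ContDiffOn ℝ ((⊤ : ℕ∞) : WithTop ℕ∞) (deriv g) (Ioi 0) :=
      hg.deriv_of_isOpen isOpen_Ioi (by simp)
    exact hd _ h3 s hs
  have hder : ∀ s : ℝ, 0 < s → deriv (fun t => w t + α * g1 t + β * g2 t) s =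
      deriv w s + α * deriv g1 s + β * deriv g2 s := by
    intro s hs
    exact (((hd w hw s hs).add ((hd g1 h1 s hs).const_mul α)).add
      ((hd g2 h2 s hs).const_mul β)).deriv
  have hder2 : deriv (deriv (fun t => w t + α * g1 t + β * g2 t)) t =
      deriv (deriv w) t + α * deriv (deriv g1) t + β * deriv (deriv g2) t := by
    have he : deriv (fun t => w t + α * g1 t + β * g2 t) =ᶠ[𝓝 t]
        fun s => deriv w s + α * deriv g1 s + β * deriv g2 s := by
      filter_upwards [Ioi_mem_nhds ht] with s hs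
      exact hder s hs
    rw [he.deriv_eq]
    exact (((hd2 w hw t ht).add ((hd2 g1 h1 t ht).const_mul α)).add
      ((hd2 g2 h2 t ht).const_mul β)).deriv
  unfold Ld
  rw [hder2, hder t ht]
  ring

/-- Polynomials. -/
theorem Ld_poly (d : ℕ) (l : ℝ) (w : Polynomial ℝ) (t : ℝ) :
    Ld d l (fun t => w.eval t) t = 4 * t * (w.derivative.derivative).eval t +
      2 * d * w.derivative.eval t + l * w.eval t := by
  have h1 : ∀ q : Polynomial ℝ, deriv (fun t => q.eval t) = fun t => q.derivative.eval t := by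
    intro q
    funext s
    exact Polynomial.deriv q
  unfold Ld
  rw [h1, h1]

/-- `Ld` is onto on the polynomials. -/
theorem Ld_onto (d : ℕ) (l : ℝ) (hl : l ≠ 0) (j : ℕ) : ∃ w : Polynomial ℝ, ∀ t : ℝ,
    4 * t * (w.derivative.derivative).eval t + 2 * d * w.derivative.eval t + l * w.eval t =
      t ^ j := by
  induction j with
  | zero =>
    refine ⟨Polynomial.C (1 / l), fun t => ?_⟩
    simp [hl]
  | succ j ih =>
    obtain ⟨w, hw⟩ := ih
    refine ⟨Polynomial.C (1 / l) * (Polynomial.X ^ (j + 1) -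
      Polynomial.C (4 * ((j : ℝ) + 1) * j + 2 * d * ((j : ℝ) + 1)) * w), fun t => ?_⟩
    have h := hw t
    have e1 : (Polynomial.derivative (Polynomial.X ^ (j + 1) : Polynomial ℝ)).eval t =
        ((j : ℝ) + 1) * t ^ j := by
      rw [Polynomial.derivative_X_pow]
      simp
    have e2 : t * (Polynomial.derivative (Polynomial.derivative
        (Polynomial.X ^ (j + 1) : Polynomial ℝ))).eval t = ((j : ℝ) + 1) * j * t ^ j := by
      rw [Polynomial.derivative_X_pow]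
      rcases j with _ | j
      · simp
      · simp
        ring
    simp only [Polynomial.derivative_mul, Polynomial.derivative_C, zero_mul, zero_add,
      Polynomial.derivative_sub, Polynomial.eval_mul, Polynomial.eval_C, Polynomial.eval_sub,
      Polynomial.eval_pow, Polynomial.eval_X]
    rw [e1]
    have e3 : 4 * t * (1 / l * ((Polynomial.derivative (Polynomial.derivative
        (Polynomial.X ^ (j + 1) : Polynomial ℝ))).eval t -
        (4 * ((j : ℝ) + 1) * j + 2 * d * ((j : ℝ) + 1)) *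
          (Polynomial.derivative (Polynomial.derivative w)).eval t)) =
        1 / l * (4 * (((j : ℝ) + 1) * j * t ^ j) - (4 * ((j : ℝ) + 1) * j + 2 * d * ((j : ℝ) + 1)) *
          (4 * t * (Polynomial.derivative (Polynomial.derivative w)).eval t)) := by
      rw [← e2]
      ring
    rw [e3]
    have e4 : 4 * t * (Polynomial.derivative (Polynomial.derivative w)).eval t =
        t ^ j - 2 * d * (Polynomial.derivative w).eval t - l * w.eval t := by
      linarith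
    rw [e4]
    field_simp
    ring

theorem sph_cd (w : Polynomial ℝ) :
    ContDiff ℝ ((⊤ : ℕ∞) : WithTop ℕ∞) (fun t : ℝ => w.eval t) := by
  have h := Polynomial.contDiff_aeval (𝕜 := ℝ) w ((⊤ : ℕ∞) : WithTop ℕ∞)
  simpa only [Polynomial.coe_aeval_eq_eval] using h

/-- A solution with a nonzero initial slope does not vanish identically. -/
theorem sph_ne (y y' : ℝ → ℝ) (x0 : ℝ) (hx0 : 0 < x0)
    (h1 : ∀ x, 0 < x → HasDerivAt y (y' x) x) (h2 : y' x0 = 1) : ∃ x, 0 < x ∧ y x ≠ 0 := by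
  by_contra hcon
  have hz : ∀ x, 0 < x → y x = 0 := by
    intro x hx
    by_contra h
    exact hcon ⟨x, hx, h⟩
  have he : y =ᶠ[𝓝 x0] fun _ => (0 : ℝ) := by
    filter_upwards [Ioi_mem_nhds hx0] with x hx
    exact hz x hx
  have h3 := (h1 x0 hx0).deriv
  rw [he.deriv_eq, deriv_const, h2] at h3
  exact zero_ne_one h3

/-- **SPH**. -/
theorem sph (lob : LobStmt) (hsd : HsdStmt) (syb : SybStmt) (rdd : RddStmt) (okd : OkdStmt) :
    SphStmt := by
  intro d a b s u hd ha hab hs hinv heig hu0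
  have hb : 0 < b := ha.trans hab
  have hsa : 0 < s * a := mul_pos hs ha
  have hsb : 0 < s * b := mul_pos hs hb
  obtain ⟨y1, y1', c1, d1, e1, v1, w1⟩ := lob (cd d) (s * a) 0 1 hsa
  obtain ⟨y2, y2', c2, d2, e2, v2, w2⟩ := lob (cd d) (s * b) 0 1 hsb
  by_cases hz1 : y1 (s * b) = 0
  · exact ⟨y1, y1', ⟨d1, e1, sph_ne y1 y1' _ hsa d1 w1⟩, v1, hz1⟩
  by_cases hz2 : y2 (s * a) = 0
  · exact ⟨y2, y2', ⟨d2, e2, sph_ne y2 y2' _ hsb d2 w2⟩, hz2, v2⟩
  exfalso
  obtain ⟨s1, l1⟩ := hsd d s y1 y1' hd hs c1 d1 e1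
  obtain ⟨s2, l2⟩ := hsd d s y2 y2' hd hs c2 d2 e2
  set g1 : ℝ → ℝ := fun t => (s * Real.sqrt t) ^ (-(((d : ℝ) - 1) / 2)) * y1 (s * Real.sqrt t)
    with hg1
  set g2 : ℝ → ℝ := fun t => (s * Real.sqrt t) ^ (-(((d : ℝ) - 1) / 2)) * y2 (s * Real.sqrt t)
    with hg2
  have hra : Real.sqrt (a ^ 2) = a := Real.sqrt_sq ha.le
  have hrb : Real.sqrt (b ^ 2) = b := Real.sqrt_sq hb.le
  have g1a : g1 (a ^ 2) = 0 := by
    simp only [hg1]
    rw [hra, v1, mul_zero]
  have g2b : g2 (b ^ 2) = 0 := by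
    simp only [hg2]
    rw [hrb, v2, mul_zero]
  have g1b : g1 (b ^ 2) ≠ 0 := by
    simp only [hg1]
    rw [hrb]
    exact mul_ne_zero (Real.rpow_pos_of_pos hsb _).ne' hz1
  have g2a : g2 (a ^ 2) ≠ 0 := by
    simp only [hg2]
    rw [hra]
    exact mul_ne_zero (Real.rpow_pos_of_pos hsa _).ne' hz2
  obtain ⟨hdom, hsym⟩ := syb.2.1 d a b (by omega) ha hab
  refine hu0 (rdd d (Sh d a b) u (by omega) hdom hsym hinv ?_)
  intro j
  obtain ⟨w, hw⟩ := Ld_onto d (s ^ 2) (by positivity) j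
  set α : ℝ := -(w.eval (b ^ 2)) / g1 (b ^ 2) with hα
  set β : ℝ := -(w.eval (a ^ 2)) / g2 (a ^ 2) with hβ
  have hwc : ContDiffOn ℝ ((⊤ : ℕ∞) : WithTop ℕ∞) (fun t => w.eval t) (Ioi 0) :=
    (sph_cd w).contDiffOn
  have hgc : ContDiffOn ℝ ((⊤ : ℕ∞) : WithTop ℕ∞)
      (fun t => w.eval t + α * g1 t + β * g2 t) (Ioi 0) :=
    (hwc.add (contDiffOn_const.mul s1)).add (contDiffOn_const.mul s2)
  have hga : (fun t => w.eval t + α * g1 t + β * g2 t) (a ^ 2) = 0 := by
    change w.eval (a ^ 2) + α * g1 (a ^ 2) + β * g2 (a ^ 2) = 0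
    rw [g1a, hβ, div_mul_cancel₀ _ g2a]
    ring
  have hgb : (fun t => w.eval t + α * g1 t + β * g2 t) (b ^ 2) = 0 := by
    change w.eval (b ^ 2) + α * g1 (b ^ 2) + β * g2 (b ^ 2) = 0
    rw [g2b, hα, div_mul_cancel₀ _ g1b]
    ring
  have hok := okd d a b (s ^ 2) _ u (by omega) ha hab hgc hga hgb heig
  rw [← hok]
  refine integral_congr_ae ?_
  have hmem : ∀ᵐ x ∂(mu (Sh d a b)), x ∈ Sh d a b := ae_restrict_mem hdom.1.measurableSet
  filter_upwards [hmem] with x hx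
  have hx0 : 0 < ‖x‖ ^ 2 := by
    have : 0 < ‖x‖ := ha.trans hx.1
    positivity
  rw [Ld_comb d (s ^ 2) α β _ g1 g2 hwc s1 s2 _ hx0, Ld_poly, hw, l1 _ hx0, l2 _ hx0]
  ring

end

end Pool.Agent.BER.H15
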